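import Pool.Agent.Helper98.Flow.SpanFinal

/-!
Equality (P) can fail: there are a compact connected smooth manifold without boundary (the
three-dimensional torus), a `C^∞` flow on it and a compatible metric for which, at `ε = 1`, the
liminf of `ln span(M, ε, D_T) / T` is strictly smaller than its limsup.
-/

open Filter
open scoped Manifold ContDiff

namespace Pool.Agent.Results.MP_a86bc9_an.SpanFails

open FlowEntropy

theorem result : ∃ (E H M : Type) (_ : NormedAddCommGroup E) (_ : NormedSpace ℝ E)
    (_ : FiniteDimensional ℝ E) (_ : TopologicalSpace H) (I : ModelWithCorners ℝ E H)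
    (_ : TopologicalSpace M) (_ : ChartedSpace H M) (_ : IsManifold I ∞ M)
    (_ : BoundarylessManifold I M) (_ : CompactSpace M) (_ : T2Space M) (_ : ConnectedSpace M)
    (φ : ℝ → M → M) (D : M → M → ℝ),
    SmoothFlow I φ ∧ CompatibleMetric M D ∧
    (∀ T > 0, IsLeast (spanSizes φ D 1 T) (span φ D 1 T)) ∧
    liminf (fun T : ℝ => ((Real.log (span φ D 1 T) / T : ℝ) : EReal)) atTop <
      limsup (fun T : ℝ => ((Real.log (span φ D 1 T) / T : ℝ) : EReal)) atTop := by
  obtain ⟨φ, D, h1, h2, h3, h4⟩ := span_main
  exact ⟨_, _, Torus3, inferInstance, inferInstance, inferInstance, inferInstance,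
    (𝓡 1).prod ((𝓡 1).prod (𝓡 1)), inferInstance, inferInstance, inferInstance, inferInstance,
    inferInstance, inferInstance, inferInstance, φ, D, h1, h2, h3, h4⟩

end Pool.Agent.Results.MP_a86bc9_an.SpanFails
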